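import Pool.Agent.W759.TR.Defs

namespace Pool.Agent.W716.TR

open Set
open Pool.Agent.W759.TR

variable {V : Type} {G : SimpleGraph V} {C : Set V} {U : V → Lab} {w : List Lab}

theorem link_left_unique {j : ℕ} {u u' v : V} (h : Link G U w j u v) (h' : Link G U w j u' v) :
    u = u' := h'.2.2.2 u h.2.1 h.2.2.1

theorem link_right_unique {j : ℕ} {u v v' : V} (h : Link G U w j u v) (h' : Link G U w j u v') :
    v = v' := h'.1.2.2 v h.1.1 h.1.2.1

theorem first_zero (v : V) : first G C U w 0 v = (v, 0) := by
  simp only [first]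

theorem first_succ_link {j : ℕ} {u v : V} (hu : u ∈ C) (hv : v ∈ C) (h : Link G U w j u v) :
    first G C U w (j + 1) v = first G C U w j u := by
  have hex : ∃ u, u ∈ C ∧ v ∈ C ∧ Link G U w j u v := ⟨u, hu, hv, h⟩
  simp only [first]
  rw [dif_pos hex]
  rw [link_left_unique hex.choose_spec.2.2 h]

theorem first_succ_nolink {j : ℕ} {v : V} (h : ¬ ∃ u, u ∈ C ∧ v ∈ C ∧ Link G U w j u v) :
    first G C U w (j + 1) v = (v, j + 1) := by
  simp only [first]
  rw [dif_neg h]

theorem lemA (j : ℕ) : ∀ (v a : V) (i : ℕ), first G C U w j v = (a, i) →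
    i ≤ j ∧ first G univ U w j v = first G univ U w i a := by
  induction j with
  | zero =>
    intro v a i h
    rw [first_zero] at h
    obtain ⟨rfl, rfl⟩ := Prod.mk.inj h
    exact ⟨le_refl _, rfl⟩
  | succ j ih =>
    intro v a i h
    by_cases hex : ∃ u, u ∈ C ∧ v ∈ C ∧ Link G U w j u v
    · obtain ⟨u, hu, hv, hl⟩ := hex
      rw [first_succ_link hu hv hl] at h
      obtain ⟨h1, h2⟩ := ih u a i h
      refine ⟨by omega, ?_⟩
      rw [first_succ_link (mem_univ u) (mem_univ v) hl, h2]
    · rw [first_succ_nolink hex] at h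
      obtain ⟨rfl, rfl⟩ := Prod.mk.inj h
      exact ⟨le_refl _, rfl⟩

theorem first_snd_le (j : ℕ) (v : V) : (first G C U w j v).2 ≤ j :=
  (lemA j v (first G C U w j v).1 (first G C U w j v).2 rfl).1

theorem lemB (j : ℕ) : ∀ (v v' : V), first G univ U w j v = first G univ U w j v' → v = v' := by
  induction j with
  | zero =>
    intro v v' h
    rw [first_zero, first_zero] at h
    exact (Prod.mk.inj h).1
  | succ j ih =>
    intro v v' h
    by_cases hex : ∃ u, u ∈ (univ : Set V) ∧ v ∈ (univ : Set V) ∧ Link G U w j u v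
    · obtain ⟨u, hu, hv, hl⟩ := hex
      by_cases hex' : ∃ u, u ∈ (univ : Set V) ∧ v' ∈ (univ : Set V) ∧ Link G U w j u v'
      · obtain ⟨u', hu', hv', hl'⟩ := hex'
        rw [first_succ_link hu hv hl, first_succ_link hu' hv' hl'] at h
        have := ih u u' h
        subst this
        exact link_right_unique hl hl'
      · rw [first_succ_link hu hv hl, first_succ_nolink hex'] at h
        have := first_snd_le (G := G) (C := univ) (U := U) (w := w) j u
        rw [h] at this
        exact absurd this (by simp)
    · by_cases hex' : ∃ u, u ∈ (univ : Set V) ∧ v' ∈ (univ : Set V) ∧ Link G U w j u v'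
      · obtain ⟨u', hu', hv', hl'⟩ := hex'
        rw [first_succ_nolink hex, first_succ_link hu' hv' hl'] at h
        have := first_snd_le (G := G) (C := univ) (U := U) (w := w) j u'
        rw [← h] at this
        exact absurd this (by simp)
      · rw [first_succ_nolink hex, first_succ_nolink hex'] at h
        exact (Prod.mk.inj h).1

/-- The case `j' = j + 1`. -/
theorem lemC (j : ℕ) (v v' : V) (hv : v ∈ C) (hv' : v' ∈ C)
    (h : first G univ U w j v = first G univ U w (j + 1) v') :
    first G C U w j v = first G C U w (j + 1) v' := by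
  by_cases hex : ∃ u, u ∈ (univ : Set V) ∧ v' ∈ (univ : Set V) ∧ Link G U w j u v'
  · obtain ⟨u, hu, hv1, hl⟩ := hex
    rw [first_succ_link hu hv1 hl] at h
    have := lemB j v u h
    subst this
    rw [first_succ_link hv hv' hl]
  · rw [first_succ_nolink hex] at h
    have := first_snd_le (G := G) (C := univ) (U := U) (w := w) j v
    rw [h] at this
    exact absurd this (by simp)

theorem t4b : T4b := by
  intro V G C U w v v' j j' hv hv'
  constructor
  · intro h
    rw [(lemA j v (first G C U w j v).1 (first G C U w j v).2 rfl).2,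
      (lemA j' v' (first G C U w j' v').1 (first G C U w j' v').2 rfl).2, h]
  · intro h hne
    by_contra hlt
    have hcases : j = j' ∨ j' = j + 1 ∨ j = j' + 1 := by
      rw [not_lt, abs_le] at hlt
      omega
    rcases hcases with rfl | rfl | rfl
    · exact hne (by rw [lemB j v v' h])
    · exact hne (lemC j v v' hv hv' h)
    · exact hne (lemC j' v' v hv' hv h.symm).symm

end Pool.Agent.W716.TR
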